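import Pool.Agent.Helper79.BR.Sep
import Pool.Agent.Helper35.BR.Defs
import Pool.Agent.Helper55.BR.Simple
import Pool.Agent.Helper92.BR.Split
import Pool.Agent.Helper3.CB.EndHDM
import Pool.Agent.Helper65.CB.Dom

/-!
# BR, end block: potential density
-/

set_option autoImplicit false

namespace Pool.Agent.Helper79.BR

open MvPolynomial AlgebraicGeometry CategoryTheory Pool.Agent.Helper15 Pool.Agent.Helper35.BR
open Pool.Agent.Helper65.CB
open scoped TensorProduct

section Glue

variable {R : Type} [CommRing R] {r : ℕ} (A : Fin r → Type) [∀ i, Ring (A i)]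
  [∀ i, Algebra R (A i)] (m : Fin r → ℕ)

/-- The universal family, as homomorphisms of algebras. -/
noncomputable def uA (i : Fin r) :
    A i →ₐ[R] Matrix (Fin (m i)) (Fin (m i)) (HomRing R A m) :=
  { univ R A m i with
    commutes' := fun c => by
      show univ R A m i (algebraMap R (A i) c) = _
      rw [univ_over i c, IsScalarTower.algebraMap_apply R (HomRing R A m)
        (Matrix (Fin (m i)) (Fin (m i)) (HomRing R A m))] }

theorem uA_apply (i : Fin r) (a : A i) (p q : Fin (m i)) :
    uA A m i a p q = cd R A m ⟨i, a, p, q⟩ := rfl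

theorem isRep_uA : IsRep (uA (R := R) A m) := by
  refine ⟨fun S _ _ ρ => ?_, fun S _ _ h h' hh => ?_⟩
  · have hρ : ∀ i, Over (algebraMap R S) (ρ i : A i →+* Matrix (Fin (m i)) (Fin (m i)) S) := by
      intro i c
      show ρ i (algebraMap R (A i) c) = _
      rw [(ρ i).commutes, IsScalarTower.algebraMap_apply R S
        (Matrix (Fin (m i)) (Fin (m i)) S)]
    refine ⟨{ lift (algebraMap R S) (fun i => (ρ i : A i →+* _)) hρ with
      commutes' := fun c => lift_algebraMap _ _ _ c }, fun i a => ?_⟩
    ext p q
    exact lift_cd _ _ hρ ⟨i, a, p, q⟩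
  · refine AlgHom.coe_ringHom_injective (hom_ext (fun c => ?_) (fun v => ?_))
    · show h (algebraMap R _ c) = h' (algebraMap R _ c)
      rw [h.commutes, h'.commutes]
    · obtain ⟨i, a, p, q⟩ := v
      have h1 := congrFun (congrFun (hh i a) p) q
      exact h1

theorem finiteType_homRing [∀ i, Module.Finite R (A i)] :
    Algebra.FiniteType R (HomRing R A m) := by
  classical
  choose s hs using fun i => (Module.Finite.fg_top : (⊤ : Submodule R (A i)).FG)
  let T : Finset (HVar A m) := Finset.univ.sigma fun i =>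
    (s i) ×ˢ (Finset.univ : Finset (Fin (m i) × Fin (m i)))
  refine ⟨⟨T.image (cd R A m), ?_⟩⟩
  have h1 : ∀ v, cd R A m v ∈ Algebra.adjoin R ((T.image (cd R A m) : Finset _) :
      Set (HomRing R A m)) := by
    rintro ⟨i, a, p, q⟩
    have ha : a ∈ Submodule.span R (s i : Set (A i)) := by rw [hs]; trivial
    induction ha using Submodule.span_induction with
    | mem x hx =>
      refine Algebra.subset_adjoin (Finset.mem_coe.mpr (Finset.mem_image_of_mem _ ?_))
      rw [Finset.mem_sigma]
      exact ⟨Finset.mem_univ _, Finset.mem_product.mpr ⟨hx, Finset.mem_univ _⟩⟩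
    | zero =>
      rw [← uA_apply, map_zero]
      exact Subalgebra.zero_mem _
    | add x y _ _ hx hy =>
      rw [← uA_apply, map_add, Matrix.add_apply]
      exact Subalgebra.add_mem _ hx hy
    | smul c x _ hx =>
      rw [← uA_apply, map_smul, Matrix.smul_apply]
      exact Subalgebra.smul_mem _ hx c
  rw [eq_top_iff]
  rintro x -
  obtain ⟨f, rfl⟩ := Ideal.Quotient.mk_surjective x
  induction f using MvPolynomial.induction_on with
  | C c => exact Subalgebra.algebraMap_mem _ c
  | add p q hp hq => rw [map_add]; exact Subalgebra.add_mem _ hp hq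
  | mul_X p v hp => rw [map_mul]; exact Subalgebra.mul_mem _ hp (h1 v)

end Glue

/-- **END of BR.** -/
theorem end_br (K : Type) [Field K] [NumberField K] {R : Type} [CommRing R] [IsDomain R]
    [IsNoetherianRing R] [Algebra K R] {r : ℕ}
    (A : Fin r → Type) [∀ i, Ring (A i)] [∀ i, Algebra R (A i)] [∀ i, Module.Finite R (A i)]
    (m : Fin r → ℕ)
    (hc : ∀ i, Algebra.IsCentral (FractionRing R) (FractionRing R ⊗[R] A i))
    (hs : ∀ i, IsSimpleRing (FractionRing R ⊗[R] A i))
    (hm : ∀ i, Module.finrank (FractionRing R) (FractionRing R ⊗[R] A i) = m i ^ 2)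
    (L : Type) [Field L] [Algebra K L] [FiniteDimensional K L]
    (hpt : ∀ f : R, f ≠ 0 → ∃ φ : R →ₐ[K] L, φ f ≠ 0 ∧
      ∀ i, ∃ ρ : A i →+* Matrix (Fin (m i)) (Fin (m i)) L, Over (φ : R →+* L) ρ) :
    ∃ δ : R, δ ≠ 0 ∧ ∀ (X : Scheme.{0}) (s : X ⟶ Spec (CommRingCat.of K)),
      DominatedOver K X
        (Spec (CommRingCat.of (Localization.Away (algebraMap R (HomRing R A m) δ)))) s
        (Spec.map (CommRingCat.ofHom
          (algebraMap K (Localization.Away (algebraMap R (HomRing R A m) δ))))) →
      PotentiallyDense K X s := by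
  classical
  have hchL : CharZero L := charZero_of_injective_algebraMap (algebraMap K L).injective
  have hne : ∀ i, NeZero (m i) := by
    intro i
    have := hs i
    have h1 : Module.Finite (FractionRing R) (FractionRing R ⊗[R] A i) := inferInstance
    have h2 : 0 < Module.finrank (FractionRing R) (FractionRing R ⊗[R] A i) :=
      Module.finrank_pos
    rw [hm i] at h2
    exact ⟨fun h0 => by rw [h0] at h2; exact absurd h2 (by norm_num)⟩
  have hsplit : ∀ i, ∃ (e : Fin (m i) × Fin (m i) → A i) (δ : R)
      (ρ : A i →+* Matrix (Fin (m i)) (Fin (m i)) (AlgebraicClosure (FractionRing R))), δ ≠ 0 ∧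
      Over (algebraMap R (AlgebraicClosure (FractionRing R))) ρ ∧
      (∀ a, ∃ c : Fin (m i) × Fin (m i) → R, δ • a = ∑ j, c j • e j) ∧
      (Matrix.of fun j k : Fin (m i) × Fin (m i) => ρ (e j) k.1 k.2).det ≠ 0 := by
    intro i
    have h1 := hc i
    have h2 := hs i
    have h3 : Module.Finite (FractionRing R) (FractionRing R ⊗[R] A i) := inferInstance
    exact Pool.Agent.Helper92.BR.generic_split_of (A i) (m i) (hm i)
      (Pool.Agent.Helper55.BR.split_closure (FractionRing R ⊗[R] A i) (m i) (hm i))
  choose e δ0 ρ hδ0 hρ he hdet using hsplit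
  have hinj : Function.Injective (algebraMap R (AlgebraicClosure (FractionRing R))) := by
    rw [IsScalarTower.algebraMap_eq R (FractionRing R) (AlgebraicClosure (FractionRing R))]
    exact (algebraMap (FractionRing R) (AlgebraicClosure (FractionRing R))).injective.comp
      (IsFractionRing.injective R (FractionRing R))
  let ρW : ∀ i, A i →ₐ[R] Matrix (Fin (m i)) (Fin (m i)) (AlgebraicClosure (FractionRing R)) :=
    fun i => { ρ i with
      commutes' := fun c => by
        show ρ i (algebraMap R (A i) c) = _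
        rw [hρ i c, IsScalarTower.algebraMap_apply R (AlgebraicClosure (FractionRing R))
          (Matrix (Fin (m i)) (Fin (m i)) (AlgebraicClosure (FractionRing R)))] }
  have hft : Algebra.FiniteType R (HomRing R A m) := finiteType_homRing A m
  obtain ⟨δ, hδ, hsep⟩ := separate (K := K) (L := L) (isRep_uA A m) hinj e δ0 hδ0 he ρW hdet hpt
  refine ⟨δ, hδ, fun X s hX => PotentiallyDense.of_dominated hX ?_⟩
  refine ⟨L, inferInstance, inferInstance, inferInstance, ?_⟩
  refine dense_ratPts_spec K L _ (fun g hg => ?_)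
  by_contra hg0
  obtain ⟨χ, hχ⟩ := hsep g hg0
  exact hχ (hg χ)

end Pool.Agent.Helper79.BR
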