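import Mathlib

/-!
# BR, end block: homomorphisms `M_m(F) → M_m(S)` are locally conjugate to the standard one
-/

set_option autoImplicit false

namespace Pool.Agent.Helper79.BR

open Matrix

section One

variable {F S : Type} [Field F] [CommRing S] [Algebra F S] {m : ℕ} [NeZero m]

/-- The matrix with the columns `τ (e_{p 0}) e_k`. -/
def gm (τ : Matrix (Fin m) (Fin m) F →ₐ[F] Matrix (Fin m) (Fin m) S) (k : Fin m) :
    Matrix (Fin m) (Fin m) S :=
  Matrix.of fun a p => τ (Matrix.single p 0 1) a k

theorem gm_single (τ : Matrix (Fin m) (Fin m) F →ₐ[F] Matrix (Fin m) (Fin m) S) (k : Fin m)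
    (x y : Fin m) (c : F) : τ (Matrix.single x y c) * gm τ k =
      gm τ k * (Matrix.single x y (algebraMap F S c)) := by
  ext a p
  have h1 : (τ (Matrix.single x y c) * gm τ k) a p =
      (τ (Matrix.single x y c) * τ (Matrix.single p 0 1)) a k := by
    rw [Matrix.mul_apply, Matrix.mul_apply]
    rfl
  rw [h1, ← map_mul]
  by_cases h : y = p
  · subst h
    rw [Matrix.single_mul_single_same, mul_one, Matrix.mul_single_apply_same]
    have h2 : Matrix.single x (0 : Fin m) c = c • Matrix.single x 0 1 := by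
      rw [Matrix.smul_single, smul_eq_mul, mul_one]
    rw [h2, map_smul, Matrix.smul_apply, Algebra.smul_def, mul_comm]
    rfl
  · rw [Matrix.single_mul_single_of_ne _ _ _ _ h, map_zero, Matrix.mul_single_apply_of_ne]
    · rfl
    · exact fun h' => h h'.symm

theorem gm_mul (τ : Matrix (Fin m) (Fin m) F →ₐ[F] Matrix (Fin m) (Fin m) S) (k : Fin m)
    (M : Matrix (Fin m) (Fin m) F) : τ M * gm τ k = gm τ k * M.map (algebraMap F S) := by
  conv_lhs => rw [Matrix.matrix_eq_sum_single M]
  have h2 : M.map (algebraMap F S) = ∑ i, ∑ j, Matrix.single i j (algebraMap F S (M i j)) :=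
    Matrix.matrix_eq_sum_single _
  rw [h2]
  simp only [map_sum, Finset.sum_mul, Finset.mul_sum, gm_single]

/-- Locally some `gm τ k` is invertible. -/
theorem exists_det_notMem (τ : Matrix (Fin m) (Fin m) F →ₐ[F] Matrix (Fin m) (Fin m) S)
    (I : Ideal S) [hI : I.IsMaximal] : ∃ k, (gm τ k).det ∉ I := by
  by_contra hcon
  push Not at hcon
  let q : S →+* S ⧸ I := Ideal.Quotient.mk I
  let iF : Field (S ⧸ I) := Ideal.Quotient.field I
  let T : Matrix (Fin m) (Fin m) F →+* Matrix (Fin m) (Fin m) (S ⧸ I) :=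
    q.mapMatrix.comp (τ : Matrix (Fin m) (Fin m) F →+* Matrix (Fin m) (Fin m) S)
  have h00 : T (Matrix.single 0 0 1) = 0 := by
    ext a k
    have hdet : ((gm τ k).map q).det = 0 := by
      have h1 : ((gm τ k).map q).det = q (gm τ k).det := (RingHom.map_det q _).symm
      rw [h1]
      exact Ideal.Quotient.eq_zero_iff_mem.mpr (hcon k)
    obtain ⟨c, hc0, hc⟩ := Matrix.exists_mulVec_eq_zero_iff.mpr hdet
    obtain ⟨s, hs⟩ := Function.ne_iff.mp hc0
    have h2 : (T (Matrix.single 0 s 1) *ᵥ (((gm τ k).map q) *ᵥ c)) a = 0 := by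
      rw [hc, Matrix.mulVec_zero]
      rfl
    rw [Matrix.mulVec_mulVec] at h2
    have h3 : T (Matrix.single 0 s 1) * (gm τ k).map q =
        ((gm τ k) * Matrix.single 0 s 1).map q := by
      have h4 := gm_single τ k 0 s (1 : F)
      rw [map_one] at h4
      rw [← h4]
      exact (Matrix.map_mul (f := q)).symm
    rw [h3, Matrix.mulVec, dotProduct] at h2
    rw [Finset.sum_eq_single s] at h2
    · have h5 : ((gm τ k) * Matrix.single 0 s (1 : S)).map q a s = T (Matrix.single 0 0 1) a k := by
        rw [Matrix.map_apply, Matrix.mul_single_apply_same, mul_one]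
        rfl
      rw [h5] at h2
      exact (mul_eq_zero.mp h2).resolve_right hs
    · intro b _ hb
      have h5 : ((gm τ k) * Matrix.single 0 s (1 : S)).map q a b = 0 := by
        rw [Matrix.map_apply, Matrix.mul_single_apply_of_ne _ _ _ _ _ hb, map_zero]
      rw [h5, zero_mul]
    · intro h
      exact absurd (Finset.mem_univ s) h
  have h1 : (1 : Matrix (Fin m) (Fin m) (S ⧸ I)) = 0 := by
    rw [← map_one T, ← Matrix.sum_single_one]
    rw [map_sum]
    refine Finset.sum_eq_zero fun p _ => ?_
    have h2 : (Matrix.single p p (1 : F) : Matrix (Fin m) (Fin m) F) =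
        Matrix.single p 0 1 * Matrix.single 0 0 1 * Matrix.single 0 p 1 := by
      rw [Matrix.single_mul_single_same, Matrix.single_mul_single_same, mul_one, mul_one]
    rw [h2, map_mul, map_mul, h00, mul_zero, zero_mul]
  have h2 := congrFun (congrFun h1 0) 0
  rw [Matrix.one_apply_eq, Matrix.zero_apply] at h2
  exact one_ne_zero h2

end One

end Pool.Agent.Helper79.BR
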