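import Pool.Agent.Helper79.BR.Inj

/-!
# BR, end block: embedding, torsion, Chevalley, points
-/

set_option autoImplicit false

namespace Pool.Agent.Helper79.BR

open Matrix MvPolynomial
open scoped TensorProduct

/-! ## the embedding -/

/-- Conjugation by a unit. -/
def cj {R : Type} [CommRing R] {n : ℕ} {S : Type} [CommRing S] [Algebra R S]
    (g : (Matrix (Fin n) (Fin n) S)ˣ) :
    Matrix (Fin n) (Fin n) S →ₐ[R] Matrix (Fin n) (Fin n) S where
  toFun M := g * M * ((g⁻¹ : (Matrix (Fin n) (Fin n) S)ˣ) : Matrix (Fin n) (Fin n) S)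
  map_one' := by rw [mul_one, Units.mul_inv]
  map_mul' x y := by
    calc (g : Matrix (Fin n) (Fin n) S) * (x * y) * ((g⁻¹ : (Matrix (Fin n) (Fin n) S)ˣ) :
          Matrix (Fin n) (Fin n) S) = g * x * 1 * (y * ((g⁻¹ : (Matrix (Fin n) (Fin n) S)ˣ) :
          Matrix (Fin n) (Fin n) S)) := by rw [mul_one]; simp only [mul_assoc]
      _ = _ := by rw [← Units.inv_mul g]; simp only [mul_assoc]
  map_zero' := by rw [mul_zero, zero_mul]
  map_add' x y := by rw [mul_add, add_mul]
  commutes' c := by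
    rw [← Algebra.commutes, mul_assoc, Units.mul_inv, mul_one]

section Emb

variable {R : Type} [CommRing R] {r : ℕ} {A : Fin r → Type} [∀ i, Ring (A i)]
  [∀ i, Algebra R (A i)] {m : Fin r → ℕ} {B : Type} [CommRing B] [Algebra R B]
  {u : ∀ i, A i →ₐ[R] Matrix (Fin (m i)) (Fin (m i)) B}

theorem exists_hP (hu : IsRep u) {F : Type} [Field F] [Algebra R F]
    (α : ∀ i, A i →ₐ[R] Matrix (Fin (m i)) (Fin (m i)) F) :
    ∃ hP : B →ₐ[R] PR F m, ∀ i a, (u i a).map hP * GP F m i =
      GP F m i * (α i a).map (algebraMap F (PR F m)) := by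
  obtain ⟨hP, h⟩ := hu.ex (PR F m) (fun i => (cj (isUnit_GP F m i).unit).comp
    ((IsScalarTower.toAlgHom R F (PR F m)).mapMatrix.comp (α i)))
  refine ⟨hP, fun i a => ?_⟩
  rw [h i a]
  show (GP F m i * (α i a).map (algebraMap F (PR F m)) * (((isUnit_GP F m i).unit⁻¹ :
    (Matrix (Fin (m i)) (Fin (m i)) (PR F m))ˣ) : Matrix (Fin (m i)) (Fin (m i)) (PR F m))) *
      GP F m i = _
  rw [mul_assoc]
  have h1 : (((isUnit_GP F m i).unit⁻¹ : (Matrix (Fin (m i)) (Fin (m i)) (PR F m))ˣ) :
      Matrix (Fin (m i)) (Fin (m i)) (PR F m)) * GP F m i = 1 :=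
    (isUnit_GP F m i).val_inv_mul
  rw [h1, mul_one]

/-- The homomorphism `A i → M_(m i)(F)` of a splitting. -/
noncomputable def al {F : Type} [Field F] [Algebra R F]
    (e : ∀ i, (F ⊗[R] A i) ≃ₐ[F] Matrix (Fin (m i)) (Fin (m i)) F) (i : Fin r) :
    A i →ₐ[R] Matrix (Fin (m i)) (Fin (m i)) F :=
  ((e i : (F ⊗[R] A i) →ₐ[F] Matrix (Fin (m i)) (Fin (m i)) F).restrictScalars R).comp
    Algebra.TensorProduct.includeRight

/-- **The embedding.** -/
theorem emb [∀ i, NeZero (m i)] (hu : IsRep u) {F : Type} [Field F] [Algebra R F]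
    (e : ∀ i, (F ⊗[R] A i) ≃ₐ[F] Matrix (Fin (m i)) (Fin (m i)) F)
    (hP : B →ₐ[R] PR F m) (hhP : ∀ i a, (u i a).map hP * GP F m i =
      GP F m i * (al e i a).map (algebraMap F (PR F m)))
    (g : B) (hg : hP g = 0) : (1 : F) ⊗ₜ[R] g = 0 := by
  let inc : B →ₐ[R] F ⊗[R] B := Algebra.TensorProduct.includeRight
  let τ' : ∀ i, (F ⊗[R] A i) →ₐ[F] Matrix (Fin (m i)) (Fin (m i)) (F ⊗[R] B) := fun i =>
    Algebra.TensorProduct.lift (Algebra.ofId F _) (inc.mapMatrix.comp (u i))
      (fun x y => Algebra.commutes _ _)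
  let τ : ∀ i, Matrix (Fin (m i)) (Fin (m i)) F →ₐ[F]
      Matrix (Fin (m i)) (Fin (m i)) (F ⊗[R] B) := fun i =>
    (τ' i).comp ((e i).symm : Matrix (Fin (m i)) (Fin (m i)) F →ₐ[F] (F ⊗[R] A i))
  refine core hu (al e) τ inc (fun i a => ?_) hP hhP g hg
  show (u i a).map inc = τ' i ((e i).symm (e i ((1 : F) ⊗ₜ[R] a)))
  rw [AlgEquiv.symm_apply_apply]
  have h1 : τ' i ((1 : F) ⊗ₜ[R] a) =
      Algebra.ofId F (Matrix (Fin (m i)) (Fin (m i)) (F ⊗[R] B)) 1 *
        (inc.mapMatrix.comp (u i)) a := Algebra.TensorProduct.lift_tmul _ _ _ _ _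
  rw [h1, map_one, one_mul]
  rfl

end Emb

/-! ## torsion -/

theorem tors {R W B : Type} [CommRing R] [IsDomain R] [Field W] [Algebra R W]
    (hinj : Function.Injective (algebraMap R W)) [CommRing B] [Algebra R B] (g : B)
    (hg : (1 : W) ⊗ₜ[R] g = 0) : ∃ s : R, s ≠ 0 ∧ s • g = 0 := by
  have : FaithfulSMul R W := (faithfulSMul_iff_algebraMap_injective R W).mpr hinj
  let iQ : Algebra (FractionRing R) W := FractionRing.liftAlgebra R W
  have hst : IsScalarTower R (FractionRing R) W := FractionRing.isScalarTower_liftAlgebra R W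
  obtain ⟨s, hs⟩ := (Algebra.linearMap (FractionRing R) W).exists_leftInverse_of_injective
    (LinearMap.ker_eq_bot.mpr (algebraMap (FractionRing R) W).injective)
  have hs1 : s 1 = 1 := by
    have h1 := LinearMap.congr_fun hs 1
    simpa using h1
  have h1 : (1 : FractionRing R) ⊗ₜ[R] g = 0 := by
    have h2 := congrArg (LinearMap.rTensor B (s.restrictScalars R)) hg
    rw [LinearMap.rTensor_tmul, map_zero] at h2
    have h3 : (s.restrictScalars R) 1 = 1 := hs1
    rw [h3] at h2
    exact h2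
  have hloc : IsLocalizedModule (nonZeroDivisors R)
      (TensorProduct.mk R (FractionRing R) B 1) := inferInstance
  have h2 : (TensorProduct.mk R (FractionRing R) B 1) g = 0 := h1
  rw [IsLocalizedModule.eq_zero_iff (nonZeroDivisors R)] at h2
  obtain ⟨c, hc⟩ := h2
  exact ⟨c, nonZeroDivisors.ne_zero c.2, hc⟩

theorem dt_ne_zero (F : Type) [Field F] {r : ℕ} (m : Fin r → ℕ) : dt F m ≠ 0 := by
  intro h
  let f : MvPolynomial (Vr m) F →ₐ[F] F := aeval fun v => (1 : Matrix _ _ F) v.2.1 v.2.2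
  have h1 : f (dt F m) = 1 := by
    have h3 : f (dt F m) = ∏ i, f (Gm F m i).det := map_prod _ _ _
    rw [h3]
    refine Finset.prod_eq_one fun i _ => ?_
    have h1 : f (Gm F m i).det = ((Gm F m i).map f).det := AlgHom.map_det f _
    have h2 : (Gm F m i).map f = 1 := by
      ext a b
      simp [Gm, f]
    rw [h1, h2, Matrix.det_one]
  rw [h, map_zero] at h1
  exact zero_ne_one h1

theorem isDomain_PR (F : Type) [Field F] {r : ℕ} (m : Fin r → ℕ) : IsDomain (PR F m) :=
  IsLocalization.isDomain_localization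
    (powers_le_nonZeroDivisors_of_noZeroDivisors (dt_ne_zero F m))

/-! ## Chevalley -/

/-- A function which is not zero on the generic fibre is not zero on the fibres over an open
set. -/
theorem chev {R B D : Type} [CommRing R] [IsDomain R] [CommRing B] [Algebra R B]
    [Algebra.FinitePresentation R B] [CommRing D] [IsDomain D] [Algebra R D]
    (hinj : Function.Injective (algebraMap R D)) (h : B →ₐ[R] D) (g : B) (hg : h g ≠ 0) :
    ∃ d : R, d ≠ 0 ∧ ∀ (L : Type) [Field L] [Algebra R L], algebraMap R L d ≠ 0 →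
      ∃ (Ω : Type) (_ : Field Ω) (_ : Algebra L Ω) (_ : Algebra R Ω) (_ : IsScalarTower R L Ω)
        (h' : B →ₐ[R] Ω), h' g ≠ 0 := by
  classical
  let C := Localization.Away g
  let k : C →+* FractionRing D := IsLocalization.Away.lift (S := C) g
    (g := ((algebraMap D (FractionRing D)).comp (h : B →+* D))) (by
      refine IsUnit.mk0 _ ?_
      show algebraMap D (FractionRing D) (h g) ≠ 0
      rw [Ne, map_eq_zero_iff _ (IsFractionRing.injective D (FractionRing D))]
      exact hg)
  have hk : ∀ x : R, k (algebraMap R C x) = algebraMap D (FractionRing D) (algebraMap R D x) := by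
    intro x
    rw [IsScalarTower.algebraMap_apply R B C, IsLocalization.Away.lift_eq]
    show algebraMap D (FractionRing D) (h (algebraMap R B x)) = _
    rw [h.commutes]
  have hfp : (algebraMap R C).FinitePresentation := by
    have h1 : Algebra.FinitePresentation B C := IsLocalization.Away.finitePresentation g
    have h2 : Algebra.FinitePresentation R C := Algebra.FinitePresentation.trans R B C
    exact (RingHom.finitePresentation_algebraMap).mpr h2
  have hcons := PrimeSpectrum.isConstructible_range_comap hfp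
  obtain ⟨Z, hZ⟩ := PrimeSpectrum.exists_constructibleSetData_iff.mpr hcons
  have hbot : (⊥ : PrimeSpectrum R) ∈ Set.range (PrimeSpectrum.comap (algebraMap R C)) := by
    refine ⟨⟨RingHom.ker k, RingHom.ker_isPrime k⟩, ?_⟩
    ext x
    show x ∈ Ideal.comap (algebraMap R C) (RingHom.ker k) ↔ x ∈ (⊥ : Ideal R)
    rw [Ideal.mem_comap, RingHom.mem_ker, hk,
      map_eq_zero_iff _ (IsFractionRing.injective D (FractionRing D)),
      map_eq_zero_iff _ hinj, Ideal.mem_bot]
  rw [← hZ] at hbot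
  unfold PrimeSpectrum.ConstructibleSetData.toSet at hbot
  simp only [Set.mem_iUnion] at hbot
  obtain ⟨z, hz, hb1, hb2⟩ := hbot
  have hz1 : ∀ x ∈ Set.range z.g, x = 0 := fun x hx => by
    have := hb1 hx
    exact this
  have hz2 : z.f ≠ 0 := by
    intro h0
    apply hb2
    rintro x hx
    rw [Set.mem_singleton_iff] at hx
    rw [hx, h0]
    exact Ideal.zero_mem _
  refine ⟨z.f, hz2, fun L _ _ hL => ?_⟩
  obtain ⟨P, hPk⟩ : ∃ P : PrimeSpectrum R, P.asIdeal = RingHom.ker (algebraMap R L) :=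
    ⟨⟨RingHom.ker (algebraMap R L), RingHom.ker_isPrime _⟩, rfl⟩
  have hP : P ∈ Set.range (PrimeSpectrum.comap (algebraMap R C)) := by
    rw [← hZ]
    unfold PrimeSpectrum.ConstructibleSetData.toSet
    simp only [Set.mem_iUnion]
    refine ⟨z, hz, fun x hx => ?_, fun hx => ?_⟩
    · rw [hz1 x hx]
      exact Ideal.zero_mem _
    · have h1 : z.f ∈ P.asIdeal := hx (Set.mem_singleton z.f)
      rw [hPk] at h1
      exact hL h1
  have hnt := (PrimeSpectrum.nontrivial_iff_mem_rangeComap P).mpr hP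
  let iL : Algebra P.asIdeal.ResidueField L := (Ideal.ResidueField.lift P.asIdeal
    (algebraMap R L) hPk.le (fun x hx => by
      refine IsUnit.mk0 _ fun h1 => ?_
      apply hx
      rw [hPk]
      exact h1)).toAlgebra
  have hst : IsScalarTower R P.asIdeal.ResidueField L := IsScalarTower.of_algebraMap_eq
    fun x => (Ideal.ResidueField.lift_algebraMap _ _ _ _ x).symm
  obtain ⟨s, hs⟩ := (Algebra.linearMap P.asIdeal.ResidueField L).exists_leftInverse_of_injective
    (LinearMap.ker_eq_bot.mpr (algebraMap P.asIdeal.ResidueField L).injective)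
  have hs1 : s 1 = 1 := by
    have h1 := LinearMap.congr_fun hs 1
    simpa using h1
  have hntL : Nontrivial (L ⊗[R] C) := by
    refine nontrivial_of_ne 1 0 fun h0 => ?_
    have h2 := congrArg (LinearMap.rTensor C (s.restrictScalars R)) h0
    rw [Algebra.TensorProduct.one_def, LinearMap.rTensor_tmul, map_zero] at h2
    have h3 : (s.restrictScalars R) 1 = 1 := hs1
    rw [h3, ← Algebra.TensorProduct.one_def] at h2
    exact one_ne_zero h2
  obtain ⟨M, hM⟩ := Ideal.exists_maximal (L ⊗[R] C)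
  let iF : Field ((L ⊗[R] C) ⧸ M) := Ideal.Quotient.field M
  refine ⟨(L ⊗[R] C) ⧸ M, iF, inferInstance, inferInstance, inferInstance,
    (Ideal.Quotient.mkₐ R M).comp ((Algebra.TensorProduct.includeRight :
      C →ₐ[R] L ⊗[R] C).comp (IsScalarTower.toAlgHom R B C)), ?_⟩
  have h3 : IsUnit (algebraMap B C g) := IsLocalization.Away.algebraMap_isUnit g
  have h4 := (h3.map (Algebra.TensorProduct.includeRight : C →ₐ[R] L ⊗[R] C)).map
    (Ideal.Quotient.mkₐ R M)
  exact h4.ne_zero

end Pool.Agent.Helper79.BR
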