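import Pool.Agent.Helper79.BR.Core

/-!
# BR, end block: the coordinate ring of a torsor embeds into a localised polynomial ring
-/

set_option autoImplicit false

namespace Pool.Agent.Helper79.BR

open Matrix MvPolynomial

section Gen

variable (F : Type) [Field F] {r : ℕ} (m : Fin r → ℕ)

/-- The variables: the entries of `r` generic matrices. -/
abbrev Vr : Type := Σ i : Fin r, Fin (m i) × Fin (m i)

/-- The generic matrix. -/
noncomputable def Gm (i : Fin r) : Matrix (Fin (m i)) (Fin (m i)) (MvPolynomial (Vr m) F) :=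
  Matrix.of fun a b => X ⟨i, a, b⟩

/-- The product of the determinants of the generic matrices. -/
noncomputable def dt : MvPolynomial (Vr m) F := ∏ i, (Gm F m i).det

/-- The coordinate ring of the product of the `GL_(m i)`. -/
abbrev PR : Type := Localization.Away (dt F m)

/-- The generic matrix in `PR`. -/
noncomputable def GP (i : Fin r) : Matrix (Fin (m i)) (Fin (m i)) (PR F m) :=
  (Gm F m i).map (algebraMap _ _)

theorem isUnit_GP (i : Fin r) : IsUnit (GP F m i) := by
  rw [Matrix.isUnit_iff_isUnit_det]
  have h1 : (GP F m i).det = algebraMap _ (PR F m) (Gm F m i).det :=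
    (RingHom.map_det (algebraMap (MvPolynomial (Vr m) F) (PR F m)) _).symm
  rw [h1]
  have h2 : IsUnit (algebraMap _ (PR F m) (dt F m)) :=
    IsLocalization.Away.algebraMap_isUnit (dt F m)
  have h3 : algebraMap _ (PR F m) (dt F m) =
      ∏ i, algebraMap (MvPolynomial (Vr m) F) (PR F m) (Gm F m i).det := map_prod _ _ _
  rw [h3] at h2
  exact isUnit_of_dvd_unit (Finset.dvd_prod_of_mem
    (fun i => algebraMap (MvPolynomial (Vr m) F) (PR F m) (Gm F m i).det) (Finset.mem_univ i)) h2

/-- Points of `PR`. -/
theorem exists_pt {S : Type} [CommRing S] [Algebra F S]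
    (g : ∀ i, Matrix (Fin (m i)) (Fin (m i)) S) (hg : ∀ i, IsUnit (g i).det) :
    ∃ η : PR F m →ₐ[F] S, ∀ i, (GP F m i).map η = g i := by
  let f : MvPolynomial (Vr m) F →ₐ[F] S := aeval fun v => g v.1 v.2.1 v.2.2
  have hf : ∀ i, (Gm F m i).map f = g i := by
    intro i
    ext a b
    simp [Gm, f]
  have hu : IsUnit (f (dt F m)) := by
    have h3 : f (dt F m) = ∏ i, f (Gm F m i).det := map_prod _ _ _
    rw [h3, IsUnit.prod_univ_iff]
    intro i
    have h1 : f (Gm F m i).det = ((Gm F m i).map f).det := AlgHom.map_det f _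
    rw [h1, hf i]
    exact hg i
  refine ⟨IsLocalization.liftAlgHom (M := Submonoid.powers (dt F m)) (f := f) (fun y => ?_), ?_⟩
  · obtain ⟨n, hn⟩ := y.2
    rw [← hn, map_pow]
    exact hu.pow n
  · intro i
    rw [← hf i]
    ext a b
    simp [GP]

end Gen

section Core

variable {R : Type} [CommRing R] {r : ℕ} {A : Fin r → Type} [∀ i, Ring (A i)]
  [∀ i, Algebra R (A i)] {m : Fin r → ℕ}

/-- `B` represents the families of homomorphisms `A i → M_(m i)`. -/
structure IsRep {B : Type} [CommRing B] [Algebra R B]
    (u : ∀ i, A i →ₐ[R] Matrix (Fin (m i)) (Fin (m i)) B) : Prop where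
  ex : ∀ (S : Type) [CommRing S] [Algebra R S]
    (ρ : ∀ i, A i →ₐ[R] Matrix (Fin (m i)) (Fin (m i)) S),
      ∃ h : B →ₐ[R] S, ∀ i a, (u i a).map h = ρ i a
  uniq : ∀ (S : Type) [CommRing S] [Algebra R S] (h h' : B →ₐ[R] S),
    (∀ i a, (u i a).map h = (u i a).map h') → h = h'

variable {B : Type} [CommRing B] [Algebra R B]
  {u : ∀ i, A i →ₐ[R] Matrix (Fin (m i)) (Fin (m i)) B}

/-- **Core.** -/
theorem core [∀ i, NeZero (m i)] (hu : IsRep u) {F : Type} [Field F] [Algebra R F]
    (α : ∀ i, A i →ₐ[R] Matrix (Fin (m i)) (Fin (m i)) F)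
    {S : Type} [CommRing S] [Algebra R S] [Algebra F S] [IsScalarTower R F S]
    (τ : ∀ i, Matrix (Fin (m i)) (Fin (m i)) F →ₐ[F] Matrix (Fin (m i)) (Fin (m i)) S)
    (hS : B →ₐ[R] S) (hhS : ∀ i a, (u i a).map hS = τ i (α i a))
    (hP : B →ₐ[R] PR F m) (hhP : ∀ i a, (u i a).map hP * GP F m i =
      GP F m i * (α i a).map (algebraMap F (PR F m)))
    (g : B) (hg : hP g = 0) : hS g = 0 := by
  classical
  let I : Ideal S := LinearMap.ker (LinearMap.toSpanSingleton S S (hS g))
  have hI : ∀ s : S, s ∈ I ↔ s * hS g = 0 := fun s => Iff.rfl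
  by_contra hne
  have hItop : I ≠ ⊤ := by
    intro h
    apply hne
    have h1 : (1 : S) ∈ I := by rw [h]; exact Submodule.mem_top
    rw [hI, one_mul] at h1
    exact h1
  obtain ⟨M, hM, hIM⟩ := Ideal.exists_le_maximal I hItop
  choose k hk using fun i => exists_det_notMem (τ i) M
  set d : S := ∏ i, (gm (τ i) (k i)).det with hd
  have hdM : d ∉ M := by
    intro h
    obtain ⟨i, _, hi⟩ := (Ideal.IsPrime.prod_mem_iff (hp := hM.isPrime)).mp h
    exact hk i hi
  let q : S →ₐ[F] Localization.Away d := IsScalarTower.toAlgHom F S (Localization.Away d)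
  let G' : ∀ i, Matrix (Fin (m i)) (Fin (m i)) (Localization.Away d) :=
    fun i => (gm (τ i) (k i)).map q
  have hG' : ∀ i, IsUnit (G' i).det := by
    intro i
    have h1 : (G' i).det = q (gm (τ i) (k i)).det := (AlgHom.map_det q _).symm
    rw [h1]
    have h2 : IsUnit (algebraMap S (Localization.Away d) d) :=
      IsLocalization.Away.algebraMap_isUnit d
    rw [hd, map_prod] at h2
    exact isUnit_of_dvd_unit (Finset.dvd_prod_of_mem
      (fun i => algebraMap S (Localization.Away d) (gm (τ i) (k i)).det) (Finset.mem_univ i)) h2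
  obtain ⟨η, hη⟩ := exists_pt F m G' hG'
  have heq : (q.restrictScalars R).comp hS = (η.restrictScalars R).comp hP := by
    refine hu.uniq _ _ _ fun i a => ?_
    have hunit : IsUnit (G' i) := (Matrix.isUnit_iff_isUnit_det _).mpr (hG' i)
    refine hunit.mul_right_cancel ?_
    have h1 : (u i a).map ((q.restrictScalars R).comp hS) * G' i =
        G' i * (α i a).map (algebraMap F (Localization.Away d)) := by
      have h2 : (u i a).map ((q.restrictScalars R).comp hS) = (τ i (α i a)).map q := by
        rw [← hhS i a, Matrix.map_map]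
        rfl
      have h3 : (τ i (α i a)).map q * G' i = (τ i (α i a) * gm (τ i) (k i)).map q :=
        (Matrix.map_mul (f := (q : S →+* Localization.Away d))).symm
      have h4 : (gm (τ i) (k i) * (α i a).map (algebraMap F S)).map q =
          G' i * ((α i a).map (algebraMap F S)).map q :=
        Matrix.map_mul (f := (q : S →+* Localization.Away d))
      rw [h2, h3, gm_mul, h4, Matrix.map_map]
      congr 1
    have h5 : (u i a).map ((η.restrictScalars R).comp hP) * G' i =
        G' i * (α i a).map (algebraMap F (Localization.Away d)) := by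
      have h2 := congrArg (fun M : Matrix (Fin (m i)) (Fin (m i)) (PR F m) => M.map η) (hhP i a)
      have h3 : ((u i a).map hP * GP F m i).map η = ((u i a).map hP).map η * (GP F m i).map η :=
        Matrix.map_mul (f := (η : PR F m →+* Localization.Away d))
      have h4 : (GP F m i * (α i a).map (algebraMap F (PR F m))).map η =
          (GP F m i).map η * ((α i a).map (algebraMap F (PR F m))).map η :=
        Matrix.map_mul (f := (η : PR F m →+* Localization.Away d))
      simp only [h3, h4, hη i, Matrix.map_map] at h2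
      have h6 : (α i a).map (η ∘ (algebraMap F (PR F m))) =
          (α i a).map (algebraMap F (Localization.Away d)) := by
        ext x y
        simp only [Matrix.map_apply, Function.comp_apply]
        exact η.commutes _
      rw [h6] at h2
      exact h2
    rw [h1, h5]
  have h1 : q (hS g) = 0 := by
    have h2 := DFunLike.congr_fun heq g
    have h3 : q (hS g) = η (hP g) := h2
    rw [h3, hg, map_zero]
  have h2 : algebraMap S (Localization.Away d) (hS g) = 0 := h1
  rw [IsLocalization.map_eq_zero_iff (Submonoid.powers d)] at h2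
  obtain ⟨⟨_, n, rfl⟩, hn⟩ := h2
  have h3 : d ^ n ∈ I := (hI _).mpr hn
  exact hdM (hM.isPrime.mem_of_pow_mem n (hIM h3))

end Core

end Pool.Agent.Helper79.BR
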