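import Mathlib

/-!
# BR, end block: linear algebra of splittings
-/

set_option autoImplicit false

namespace Pool.Agent.Helper79.BR

open Matrix
open scoped TensorProduct

theorem det_ne_zero_iff {F : Type} [Field F] {m : ℕ}
    (v : Fin m × Fin m → Matrix (Fin m) (Fin m) F) :
    (Matrix.of fun j k : Fin m × Fin m => v j k.1 k.2).det ≠ 0 ↔ LinearIndependent F v := by
  let c : Matrix (Fin m) (Fin m) F →ₗ[F] (Fin m × Fin m → F) :=
    { toFun := fun M k => M k.1 k.2
      map_add' := fun _ _ => rfl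
      map_smul' := fun _ _ => rfl }
  have hc : Function.Injective c := by
    intro M N h
    ext a b
    exact congrFun h (a, b)
  rw [← LinearMap.linearIndependent_iff_of_injOn c hc.injOn, ← isUnit_iff_ne_zero,
    ← Matrix.isUnit_iff_isUnit_det, ← Matrix.linearIndependent_rows_iff_isUnit]
  rfl

theorem bij_of {F : Type} [Field F] {m : ℕ} {C : Type} [AddCommGroup C] [Module F C]
    (v : Fin m × Fin m → C) (hv : ⊤ ≤ Submodule.span F (Set.range v))
    (f : C →ₗ[F] Matrix (Fin m) (Fin m) F) (hf : LinearIndependent F (f ∘ v)) :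
    Function.Bijective f := by
  have hli : LinearIndependent F v := hf.of_comp f
  let b := Module.Basis.mk hli hv
  have hfin : Module.Finite F C := Module.Finite.of_basis b
  have hrk : Module.finrank F C = Module.finrank F (Matrix (Fin m) (Fin m) F) := by
    rw [Module.finrank_eq_card_basis b, Module.finrank_matrix, Module.finrank_self, mul_one,
      Fintype.card_prod]
  have hinj : Function.Injective f := by
    rw [← LinearMap.ker_eq_bot, LinearMap.ker_eq_bot']
    intro x hx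
    have h1 := b.sum_repr x
    rw [← h1, map_sum] at hx
    have h2 : ∑ i, b.repr x i • (f ∘ v) i = 0 := by
      rw [← hx]
      refine Finset.sum_congr rfl fun i _ => ?_
      rw [map_smul, Module.Basis.mk_apply]
      rfl
    have h3 := Fintype.linearIndependent_iff.mp hf _ h2
    rw [← h1]
    exact Finset.sum_eq_zero fun i _ => by rw [h3 i, zero_smul]
  exact ⟨hinj, (LinearMap.injective_iff_surjective_of_finrank_eq_finrank hrk).mp hinj⟩

section Rep

variable {R : Type} [CommRing R] {A : Type} [Ring A] [Algebra R A] {m : ℕ}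

theorem span_tmul {L : Type} [Field L] [Algebra R L] (e : Fin m × Fin m → A) (δ : R)
    (hδ : algebraMap R L δ ≠ 0) (he : ∀ a, ∃ c : Fin m × Fin m → R, δ • a = ∑ j, c j • e j) :
    ⊤ ≤ Submodule.span L (Set.range fun j => (1 : L) ⊗ₜ[R] e j) := by
  intro x _
  induction x with
  | zero => exact Submodule.zero_mem _
  | tmul x a =>
    obtain ⟨c, hc⟩ := he a
    have h1 : (algebraMap R L δ) • (x ⊗ₜ[R] a) =
        ∑ j, (x * algebraMap R L (c j)) • ((1 : L) ⊗ₜ[R] e j) := by
      rw [algebraMap_smul, ← TensorProduct.tmul_smul, hc, TensorProduct.tmul_sum]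
      refine Finset.sum_congr rfl fun j _ => ?_
      rw [TensorProduct.smul_tmul', smul_eq_mul, mul_one, TensorProduct.tmul_smul,
        TensorProduct.smul_tmul', Algebra.smul_def, mul_comm]
    have h2 : x ⊗ₜ[R] a = (algebraMap R L δ)⁻¹ • ((algebraMap R L δ) • (x ⊗ₜ[R] a)) := by
      rw [smul_smul, inv_mul_cancel₀ hδ, one_smul]
    rw [h2, h1]
    exact Submodule.smul_mem _ _ (Submodule.sum_mem _ fun j _ =>
      Submodule.smul_mem _ _ (Submodule.subset_span ⟨j, rfl⟩))
  | add x y hx hy => exact Submodule.add_mem _ (hx trivial) (hy trivial)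

/-- The extension of a representation. -/
noncomputable def ext {L : Type} [Field L] [Algebra R L]
    (ρ : A →ₐ[R] Matrix (Fin m) (Fin m) L) : (L ⊗[R] A) →ₐ[L] Matrix (Fin m) (Fin m) L :=
  Algebra.TensorProduct.lift (Algebra.ofId L _) ρ (fun x y => Algebra.commutes _ _)

theorem ext_tmul {L : Type} [Field L] [Algebra R L]
    (ρ : A →ₐ[R] Matrix (Fin m) (Fin m) L) (a : A) : ext ρ ((1 : L) ⊗ₜ[R] a) = ρ a := by
  have h1 : ext ρ ((1 : L) ⊗ₜ[R] a) = Algebra.ofId L (Matrix (Fin m) (Fin m) L) 1 * ρ a :=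
    Algebra.TensorProduct.lift_tmul _ _ _ _ _
  rw [h1, map_one, one_mul]

theorem ext_bij {L : Type} [Field L] [Algebra R L] (e : Fin m × Fin m → A) (δ : R)
    (hδ : algebraMap R L δ ≠ 0) (he : ∀ a, ∃ c : Fin m × Fin m → R, δ • a = ∑ j, c j • e j)
    (ρ : A →ₐ[R] Matrix (Fin m) (Fin m) L)
    (hρ : (Matrix.of fun j k : Fin m × Fin m => ρ (e j) k.1 k.2).det ≠ 0) :
    Function.Bijective (ext ρ) := by
  refine bij_of _ (span_tmul e δ hδ he) (ext ρ).toLinearMap ?_
  have h1 : ((ext ρ).toLinearMap ∘ fun j => (1 : L) ⊗ₜ[R] e j) = fun j => ρ (e j) := by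
    funext j
    exact ext_tmul ρ (e j)
  rw [h1]
  exact (det_ne_zero_iff fun j => ρ (e j)).mp hρ

/-- A representation over a smaller field is also an isomorphism. -/
theorem iso_of_rep [NeZero m] {L : Type} [Field L] [Algebra R L] (e : Fin m × Fin m → A) (δ : R)
    (hδ : algebraMap R L δ ≠ 0) (he : ∀ a, ∃ c : Fin m × Fin m → R, δ • a = ∑ j, c j • e j)
    {Ω : Type} [Field Ω] [Algebra L Ω] [Algebra R Ω] [IsScalarTower R L Ω]
    (ρ' : A →ₐ[R] Matrix (Fin m) (Fin m) Ω)
    (hρ' : (Matrix.of fun j k : Fin m × Fin m => ρ' (e j) k.1 k.2).det ≠ 0)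
    (ρ : A →ₐ[R] Matrix (Fin m) (Fin m) L) :
    Nonempty ((L ⊗[R] A) ≃ₐ[L] Matrix (Fin m) (Fin m) L) := by
  have hδ' : algebraMap R Ω δ ≠ 0 := by
    rw [IsScalarTower.algebraMap_apply R L Ω]
    exact (map_ne_zero _).mpr hδ
  let E' : (Ω ⊗[R] A) ≃ₐ[Ω] Matrix (Fin m) (Fin m) Ω :=
    AlgEquiv.ofBijective (ext ρ') (ext_bij e δ hδ' he ρ' hρ')
  let ρΩ : A →ₐ[R] Matrix (Fin m) (Fin m) Ω := (IsScalarTower.toAlgHom R L Ω).mapMatrix.comp ρ
  have hinj : Function.Injective (ext ρΩ) := by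
    have h1 : Function.Injective ((ext ρΩ).comp
        (E'.symm : Matrix (Fin m) (Fin m) Ω →ₐ[Ω] (Ω ⊗[R] A))) :=
      RingHom.injective ((ext ρΩ).comp
        (E'.symm : Matrix (Fin m) (Fin m) Ω →ₐ[Ω] (Ω ⊗[R] A))).toRingHom
    intro x y hxy
    have h2 : E' x = E' y := by
      apply h1
      show ext ρΩ (E'.symm (E' x)) = ext ρΩ (E'.symm (E' y))
      rw [AlgEquiv.symm_apply_apply, AlgEquiv.symm_apply_apply, hxy]
    exact E'.injective h2
  have hli' : LinearIndependent Ω fun j => (1 : Ω) ⊗ₜ[R] e j := by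
    have h1 := (det_ne_zero_iff fun j => ρ' (e j)).mp hρ'
    have h2 : (fun j => ρ' (e j)) = (ext ρ').toLinearMap ∘ fun j => (1 : Ω) ⊗ₜ[R] e j := by
      funext j
      exact (ext_tmul ρ' (e j)).symm
    rw [h2] at h1
    exact h1.of_comp _
  have hli : LinearIndependent Ω fun j => ρΩ (e j) := by
    have h2 : (fun j => ρΩ (e j)) = (ext ρΩ).toLinearMap ∘ fun j => (1 : Ω) ⊗ₜ[R] e j := by
      funext j
      exact (ext_tmul ρΩ (e j)).symm
    rw [h2]
    exact hli'.map' _ (LinearMap.ker_eq_bot.mpr hinj)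
  have hdet : (Matrix.of fun j k : Fin m × Fin m => ρ (e j) k.1 k.2).det ≠ 0 := by
    intro h0
    have h1 := (det_ne_zero_iff fun j => ρΩ (e j)).mpr hli
    apply h1
    have h2 : (Matrix.of fun j k : Fin m × Fin m => ρΩ (e j) k.1 k.2) =
        (Matrix.of fun j k : Fin m × Fin m => ρ (e j) k.1 k.2).map (algebraMap L Ω) := rfl
    have h3 : ((Matrix.of fun j k : Fin m × Fin m => ρ (e j) k.1 k.2).map (algebraMap L Ω)).det =
        algebraMap L Ω (Matrix.of fun j k : Fin m × Fin m => ρ (e j) k.1 k.2).det :=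
      (RingHom.map_det (algebraMap L Ω) _).symm
    rw [h2, h3, h0, map_zero]
  exact ⟨AlgEquiv.ofBijective (ext ρ) (ext_bij e δ hδ he ρ hdet)⟩

end Rep

end Pool.Agent.Helper79.BR
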