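import Pool.Agent.Helper79.BR.Emb
import Pool.Agent.Helper79.BR.Lin

/-!
# BR, end block: separation of functions by points
-/

set_option autoImplicit false

namespace Pool.Agent.Helper79.BR

open Matrix MvPolynomial
open scoped TensorProduct

section Sep

variable {R : Type} [CommRing R] {r : ℕ} {A : Fin r → Type} [∀ i, Ring (A i)]
  [∀ i, Algebra R (A i)] {m : Fin r → ℕ} {B : Type} [CommRing B] [Algebra R B]
  {u : ∀ i, A i →ₐ[R] Matrix (Fin (m i)) (Fin (m i)) B}

/-- A nonzero element of `PR` is nonzero at a rational point. -/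
theorem exists_point (L : Type) [Field L] [Infinite L] (x : PR L m) (hx : x ≠ 0) :
    ∃ η : PR L m →ₐ[L] L, η x ≠ 0 := by
  classical
  obtain ⟨⟨p, s⟩, hps⟩ := IsLocalization.surj (Submonoid.powers (dt L m)) x
  obtain ⟨n, hn⟩ := s.2
  have hp : p ≠ 0 := by
    rintro rfl
    rw [map_zero] at hps
    have hu : IsUnit (algebraMap (MvPolynomial (Vr m) L) (PR L m) (s : MvPolynomial (Vr m) L)) :=
      IsLocalization.map_units (PR L m) s
    exact hx ((hu.mul_left_eq_zero).mp hps)
  have hpd : p * dt L m ≠ 0 := mul_ne_zero hp (dt_ne_zero L m)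
  obtain ⟨y, hy⟩ : ∃ y : Vr m → L, eval y (p * dt L m) ≠ 0 := by
    by_contra hcon
    push Not at hcon
    exact hpd (MvPolynomial.funext fun y => by rw [hcon y, map_zero])
  rw [map_mul] at hy
  have hy1 := left_ne_zero_of_mul hy
  have hy2 := right_ne_zero_of_mul hy
  let g : ∀ i, Matrix (Fin (m i)) (Fin (m i)) L := fun i => Matrix.of fun a b => y ⟨i, a, b⟩
  have hg : ∀ i, (g i).det = eval y (Gm L m i).det := by
    intro i
    rw [RingHom.map_det]
    congr 1
    ext a b
    simp [Gm, g]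
  have hgu : ∀ i, IsUnit (g i).det := by
    intro i
    refine IsUnit.mk0 _ ?_
    rw [hg i]
    have h3 : eval y (dt L m) = ∏ i, eval y (Gm L m i).det := map_prod _ _ _
    rw [h3] at hy2
    exact fun h => hy2 (Finset.prod_eq_zero (Finset.mem_univ i) h)
  obtain ⟨η, hη⟩ := exists_pt L m g hgu
  refine ⟨η, fun h0 => ?_⟩
  have h1 : ∀ q : MvPolynomial (Vr m) L, η (algebraMap _ (PR L m) q) = eval y q := by
    intro q
    have h2 : (η.comp (IsScalarTower.toAlgHom L (MvPolynomial (Vr m) L) (PR L m))) =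
        aeval y := by
      refine MvPolynomial.algHom_ext fun v => ?_
      have h3 := congrFun (congrFun (hη v.1) v.2.1) v.2.2
      rw [aeval_X]
      exact h3
    have h4 := DFunLike.congr_fun h2 q
    exact h4.trans (RingHom.congr_fun (coe_aeval_eq_eval y) q)
  have h2 := congrArg η hps
  rw [map_mul, h0, zero_mul, h1] at h2
  exact hy1 h2.symm

/-- Points of the fibre. -/
theorem exists_fibre_point [∀ i, NeZero (m i)] (hu : IsRep u) {L : Type} [Field L] [Infinite L]
    [Algebra R L] (e : ∀ i, (L ⊗[R] A i) ≃ₐ[L] Matrix (Fin (m i)) (Fin (m i)) L) (g : B)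
    (hg : (1 : L) ⊗ₜ[R] g ≠ 0) : ∃ ψ : B →ₐ[R] L, ψ g ≠ 0 := by
  obtain ⟨hP, hhP⟩ := exists_hP hu (al e)
  have h1 : hP g ≠ 0 := fun h => hg (emb hu e hP hhP g h)
  obtain ⟨η, hη⟩ := exists_point L (hP g) h1
  exact ⟨(η.restrictScalars R).comp hP, hη⟩

theorem exists_delta [IsDomain R] [IsNoetherianRing R] [Algebra.FiniteType R B]
    [∀ i, NeZero (m i)] (hu : IsRep u) {W : Type} [Field W] [Algebra R W]
    (hinj : Function.Injective (algebraMap R W))
    (e : ∀ i, (W ⊗[R] A i) ≃ₐ[W] Matrix (Fin (m i)) (Fin (m i)) W)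
    (hP : B →ₐ[R] PR W m) (hhP : ∀ i a, (u i a).map hP * GP W m i =
      GP W m i * (al e i a).map (algebraMap W (PR W m))) :
    ∃ δ : R, δ ≠ 0 ∧ ∀ g : B, hP g = 0 → δ • g = 0 := by
  classical
  have hnB : IsNoetherianRing B := Algebra.FiniteType.isNoetherianRing R B
  obtain ⟨s, hs⟩ := (isNoetherianRing_iff_ideal_fg B).mp hnB (RingHom.ker hP)
  have h1 : ∀ x : B, ∃ c : R, c ≠ 0 ∧ (x ∈ s → c • x = 0) := by
    intro x
    by_cases hx : x ∈ s
    · have hx1 : hP x = 0 := by
        have h2 : x ∈ RingHom.ker hP := by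
          rw [← hs]
          exact Ideal.subset_span hx
        exact h2
      obtain ⟨c, hc, hc1⟩ := tors hinj x (emb hu e hP hhP x hx1)
      exact ⟨c, hc, fun _ => hc1⟩
    · exact ⟨1, one_ne_zero, fun h => absurd h hx⟩
  choose c hc hc1 using h1
  refine ⟨∏ x ∈ s, c x, Finset.prod_ne_zero_iff.mpr fun x _ => hc x, fun g hg => ?_⟩
  have h2 : g ∈ Ideal.span (s : Set B) := by
    rw [hs]
    exact hg
  clear hg
  induction h2 using Submodule.span_induction with
  | mem x hx =>
    rw [← Finset.prod_erase_mul _ _ hx, mul_smul, hc1 x hx, smul_zero]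
  | zero => exact smul_zero _
  | add x y _ _ hx hy => rw [smul_add, hx, hy, add_zero]
  | smul a x _ hx => rw [smul_comm, hx, smul_zero]

theorem al_ofBij {W : Type} [Field W] [Algebra R W]
    (ρW : ∀ i, A i →ₐ[R] Matrix (Fin (m i)) (Fin (m i)) W)
    (hb : ∀ i, Function.Bijective (ext (ρW i))) (i : Fin r) (a : A i) :
    al (fun i => AlgEquiv.ofBijective (ext (ρW i)) (hb i)) i a = ρW i a :=
  ext_tmul (ρW i) a

/-- **Separation.** -/
theorem separate {K L : Type} [Field K] [Field L] [Infinite L] [Algebra K L] [Algebra K R]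
    [Algebra K B] [IsScalarTower K R B] [IsDomain R] [IsNoetherianRing R] [Algebra.FiniteType R B]
    [∀ i, NeZero (m i)] (hu : IsRep u) {W : Type} [Field W] [Algebra R W]
    (hinj : Function.Injective (algebraMap R W)) (e : ∀ i, Fin (m i) × Fin (m i) → A i)
    (δ0 : Fin r → R) (hδ0 : ∀ i, δ0 i ≠ 0)
    (he : ∀ i a, ∃ c : Fin (m i) × Fin (m i) → R, δ0 i • a = ∑ j, c j • e i j)
    (ρW : ∀ i, A i →ₐ[R] Matrix (Fin (m i)) (Fin (m i)) W)
    (hρW : ∀ i, (Matrix.of fun j k : Fin (m i) × Fin (m i) => ρW i (e i j) k.1 k.2).det ≠ 0)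
    (H : ∀ f : R, f ≠ 0 → ∃ φ : R →ₐ[K] L, φ f ≠ 0 ∧
      ∀ i, ∃ ρ : A i →+* Matrix (Fin (m i)) (Fin (m i)) L,
        ∀ c, ρ (algebraMap R (A i) c) = algebraMap L (Matrix (Fin (m i)) (Fin (m i)) L) (φ c)) :
    ∃ δ : R, δ ≠ 0 ∧ ∀ x : Localization.Away (algebraMap R B δ), x ≠ 0 →
      ∃ χ : Localization.Away (algebraMap R B δ) →ₐ[K] L, χ x ≠ 0 := by
  classical
  have hW0 : ∀ c : R, c ≠ 0 → algebraMap R W c ≠ 0 := by
    intro c hc
    rwa [Ne, map_eq_zero_iff _ hinj]
  have hb : ∀ i, Function.Bijective (ext (ρW i)) := fun i =>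
    ext_bij (e i) (δ0 i) (hW0 _ (hδ0 i)) (he i) (ρW i) (hρW i)
  obtain ⟨hP, hhP⟩ := exists_hP hu (al fun i => AlgEquiv.ofBijective (ext (ρW i)) (hb i))
  obtain ⟨δ1, hδ1, hkill⟩ := exists_delta hu hinj _ hP hhP
  have hdom : IsDomain (PR W m) := isDomain_PR W m
  have hinjP : Function.Injective (algebraMap R (PR W m)) := by
    rw [IsScalarTower.algebraMap_eq R W (PR W m)]
    exact (algebraMap W (PR W m)).injective.comp hinj
  refine ⟨δ1, hδ1, fun x hx => ?_⟩
  obtain ⟨⟨g, s⟩, hgs⟩ := IsLocalization.surj (Submonoid.powers (algebraMap R B δ1)) x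
  have hgs' : x * algebraMap B (Localization.Away (algebraMap R B δ1)) s =
      algebraMap B (Localization.Away (algebraMap R B δ1)) g := hgs
  have hPg : hP g ≠ 0 := by
    intro h0
    have h1 := hkill g h0
    have h2 : algebraMap B (Localization.Away (algebraMap R B δ1)) (algebraMap R B δ1) *
        algebraMap B (Localization.Away (algebraMap R B δ1)) g = 0 := by
      rw [← map_mul, ← Algebra.smul_def, h1, map_zero]
    have h3 := ((IsLocalization.Away.algebraMap_isUnit (S := Localization.Away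
      (algebraMap R B δ1)) (algebraMap R B δ1)).mul_right_eq_zero).mp h2
    rw [← hgs'] at h3
    have h4 : IsUnit (algebraMap B (Localization.Away (algebraMap R B δ1)) s) :=
      IsLocalization.map_units _ s
    exact hx ((h4.mul_left_eq_zero).mp h3)
  -- the determinants
  let g0 : B := ∏ i, (Matrix.of fun j k : Fin (m i) × Fin (m i) => u i (e i j) k.1 k.2).det
  have hg0 : ∀ {S : Type} [CommRing S] (h : B →+* S), h g0 =
      ∏ i, (Matrix.of fun j k : Fin (m i) × Fin (m i) => h (u i (e i j) k.1 k.2)).det := by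
    intro S _ h
    rw [map_prod]
    refine Finset.prod_congr rfl fun i _ => ?_
    rw [RingHom.map_det]
    rfl
  have hPg0 : hP g0 ≠ 0 := by
    obtain ⟨η, hη⟩ := exists_pt W m (S := W) (fun i => 1) (fun i => by
      rw [Matrix.det_one]; exact isUnit_one)
    intro h0
    have h1 : ((η : PR W m →+* W).comp (hP : B →+* PR W m)) g0 = 0 := by
      show η (hP g0) = 0
      rw [h0, map_zero]
    rw [hg0] at h1
    obtain ⟨i, _, hi⟩ := Finset.prod_eq_zero_iff.mp h1
    apply hρW i
    rw [← hi]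
    congr 1
    ext j k
    rw [Matrix.of_apply, Matrix.of_apply]
    have h2 := congrArg (fun M : Matrix (Fin (m i)) (Fin (m i)) (PR W m) => M.map η)
      (hhP i (e i j))
    have h3 : ((u i (e i j)).map hP * GP W m i).map η =
        ((u i (e i j)).map hP).map η * (GP W m i).map η :=
      Matrix.map_mul (f := (η : PR W m →+* W))
    have h4 : (GP W m i * (al (fun i => AlgEquiv.ofBijective (ext (ρW i)) (hb i)) i
        (e i j)).map (algebraMap W (PR W m))).map η = (GP W m i).map η *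
          ((al (fun i => AlgEquiv.ofBijective (ext (ρW i)) (hb i)) i
        (e i j)).map (algebraMap W (PR W m))).map η :=
      Matrix.map_mul (f := (η : PR W m →+* W))
    simp only [h3, h4, hη i, mul_one, one_mul, Matrix.map_map] at h2
    have h5 := congrFun (congrFun h2 k.1) k.2
    rw [al_ofBij] at h5
    simp only [Matrix.map_apply, Function.comp_apply] at h5
    have h6 : η (algebraMap W (PR W m) (ρW i (e i j) k.1 k.2)) = ρW i (e i j) k.1 k.2 :=
      η.commutes _
    rw [h6] at h5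
    exact h5.symm
  have hPgg : hP (g * g0) ≠ 0 := by
    rw [map_mul]
    exact mul_ne_zero hPg hPg0
  have hfp : Algebra.FinitePresentation R B := Algebra.FinitePresentation.of_finiteType.mp
    inferInstance
  obtain ⟨d, hd, hchev⟩ := chev hinjP hP (g * g0) hPgg
  obtain ⟨φ, hφ, hρ⟩ := H (δ1 * (∏ i, δ0 i) * d) (mul_ne_zero (mul_ne_zero hδ1
    (Finset.prod_ne_zero_iff.mpr fun i _ => hδ0 i)) hd)
  rw [map_mul, map_mul, map_prod] at hφ
  have hφd := right_ne_zero_of_mul hφ
  have hφ1 := left_ne_zero_of_mul (left_ne_zero_of_mul hφ)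
  have hφ0 : ∀ i, φ (δ0 i) ≠ 0 := fun i h =>
    right_ne_zero_of_mul (left_ne_zero_of_mul hφ) (Finset.prod_eq_zero (Finset.mem_univ i) h)
  letI iRL : Algebra R L := (φ : R →+* L).toAlgebra
  obtain ⟨Ω, iΩ, iLΩ, iRΩ, hst, h', hh'⟩ := hchev L hφd
  rw [map_mul] at hh'
  have hh1 := left_ne_zero_of_mul hh'
  have hh2 := right_ne_zero_of_mul hh'
  have heL : ∀ i, Nonempty ((L ⊗[R] A i) ≃ₐ[L] Matrix (Fin (m i)) (Fin (m i)) L) := by
    intro i
    obtain ⟨ρ, hρi⟩ := hρ i
    let ρL : A i →ₐ[R] Matrix (Fin (m i)) (Fin (m i)) L :=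
      { ρ with
        commutes' := fun c => by
          show ρ (algebraMap R (A i) c) = _
          rw [hρi c, IsScalarTower.algebraMap_apply R L (Matrix (Fin (m i)) (Fin (m i)) L)]
          rfl }
    refine iso_of_rep (e i) (δ0 i) (hφ0 i) (he i) (h'.mapMatrix.comp (u i)) ?_ ρL
    intro h0
    have h1 : (h' : B →+* Ω) g0 ≠ 0 := hh2
    rw [hg0] at h1
    exact h1 (Finset.prod_eq_zero (Finset.mem_univ i) h0)
  have h1g : (1 : L) ⊗ₜ[R] g ≠ 0 := by
    intro h0
    let F : L ⊗[R] B →ₐ[L] Ω := Algebra.TensorProduct.lift (Algebra.ofId L Ω) h'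
      (fun _ _ => Commute.all _ _)
    have h2 : F ((1 : L) ⊗ₜ[R] g) = h' g := by
      have h3 : F ((1 : L) ⊗ₜ[R] g) = Algebra.ofId L Ω 1 * h' g :=
        Algebra.TensorProduct.lift_tmul _ _ _ _ _
      rw [h3, map_one, one_mul]
    rw [h0, map_zero] at h2
    exact hh1 h2.symm
  obtain ⟨ψ, hψ⟩ := exists_fibre_point hu (fun i => (heL i).some) g h1g
  let ψK : B →ₐ[K] L :=
    { (ψ : B →+* L) with
      commutes' := fun c => by
        show ψ (algebraMap K B c) = _
        rw [IsScalarTower.algebraMap_apply K R B, ψ.commutes]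
        exact φ.commutes c }
  have hunit : ∀ y : Submonoid.powers (algebraMap R B δ1), IsUnit (ψK y) := by
    rintro ⟨_, n, rfl⟩
    show IsUnit (ψ ((algebraMap R B δ1) ^ n))
    rw [map_pow, ψ.commutes]
    exact (IsUnit.mk0 _ hφ1).pow n
  let χ : Localization.Away (algebraMap R B δ1) →ₐ[K] L :=
    IsLocalization.liftAlgHom (M := Submonoid.powers (algebraMap R B δ1)) (f := ψK) hunit
  refine ⟨χ, fun h0 => hψ ?_⟩
  have h2 := congrArg χ hgs'
  rw [map_mul, h0, zero_mul] at h2
  have h3 : χ (algebraMap B (Localization.Away (algebraMap R B δ1)) g) = ψK g :=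
    IsLocalization.lift_eq _ _
  rw [h3] at h2
  exact h2.symm

end Sep

end Pool.Agent.Helper79.BR
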